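import Pool.Agent.Helper44.CM.StmtsB5

/-!
# Project MM, block B5, row BASE: the Gaussian
-/

open MeasureTheory

namespace CM

lemma base_qn_contDiff {n : ℕ} (k : WithTop ℕ∞) : ContDiff ℝ k (qn : E n → ℝ) := by
  have h : ContDiff ℝ k (fun x : E n => ‖x‖ ^ 2) := contDiff_norm_sq ℝ
  exact h.div_const 2

lemma base_fderiv_qn {n : ℕ} (x v : E n) : fderiv ℝ (qn : E n → ℝ) x v = inner ℝ x v := by
  have h : HasFDerivAt (fun y : E n => ‖y‖ ^ 2) (2 • innerSL ℝ x) x :=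
    (hasStrictFDerivAt_norm_sq x).hasFDerivAt
  have h2 : HasFDerivAt (qn : E n → ℝ) ((2 : ℝ)⁻¹ • (2 • innerSL ℝ x)) x := by
    have := h.const_mul (2 : ℝ)⁻¹
    refine this.congr_of_eventuallyEq (Filter.Eventually.of_forall fun y => ?_)
    simp only [qn]
    ring
  rw [h2.fderiv]
  simp

lemma base_pd_qn {n : ℕ} (j : Fin n) : pd j (qn : E n → ℝ) = fun x => x j := by
  funext x
  rw [pd, base_fderiv_qn, EuclideanSpace.inner_single_right]
  simp

lemma base_pd_coord {n : ℕ} (i j : Fin n) :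
    pd i (fun x : E n => x j) = fun _ => (1 : Mt n) i j := by
  funext x
  have h : fderiv ℝ (fun y : E n => y j) x = (EuclideanSpace.proj j : E n →L[ℝ] ℝ) :=
    (EuclideanSpace.proj j : E n →L[ℝ] ℝ).fderiv
  rw [pd, h]
  by_cases hij : i = j
  · subst hij; simp
  · have hji : j ≠ i := fun e => hij e.symm
    simp [hij, hji]

lemma base_pd_pd_qn {n : ℕ} (i j : Fin n) :
    pd i (pd j (qn : E n → ℝ)) = fun _ => (1 : Mt n) i j := by
  rw [base_pd_qn, base_pd_coord]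

lemma base_hess_qn {n : ℕ} (x : E n) : hess (qn : E n → ℝ) x = 1 := by
  ext i j
  simp only [hess, Matrix.of_apply, base_pd_pd_qn]

lemma base_pd_const {n : ℕ} (i : Fin n) (c : ℝ) : pd i (fun _ : E n => c) = fun _ => (0 : ℝ) := by
  funext x
  simp [pd]

lemma base_pdl_const {n : ℕ} (l : List (Fin n)) (c : ℝ) :
    ∃ d : ℝ, |d| ≤ |c| ∧ pdl l (fun _ : E n => c) = fun _ => d := by
  induction l with
  | nil => exact ⟨c, le_rfl, rfl⟩
  | cons i l ih =>
    obtain ⟨d, _, hd⟩ := ih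
    refine ⟨0, by simp, ?_⟩
    rw [pdl, hd, base_pd_const]

lemma base_HB_const {n : ℕ} (k : ℕ) (c : ℝ) : HB k |c| (fun _ : E n => c) := by
  refine ⟨contDiff_const, fun l _ => ?_⟩
  obtain ⟨d, hd, h⟩ := base_pdl_const l c
  rw [h]
  refine ⟨fun x => hd, fun x y => ?_⟩
  simp only [sub_self, abs_zero]
  positivity

lemma base_H0_mono {n : ℕ} {a b : ℝ} {f : E n → ℝ} (hab : a ≤ b) (h : H0 a f) : H0 b f := by
  refine ⟨fun x => (h.1 x).trans hab, fun x y => (h.2 x y).trans ?_⟩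
  exact mul_le_mul_of_nonneg_right hab (Real.sqrt_nonneg _)

lemma base_HB_mono {n : ℕ} {k : ℕ} {a b : ℝ} {f : E n → ℝ} (hab : a ≤ b) (h : HB k a f) :
    HB k b f :=
  ⟨h.1, fun l hl => base_H0_mono hab (h.2 l hl)⟩

lemma base_isEv_qn {n : ℕ} : IsEv (qn : E n → ℝ) := fun x => by simp [qn]

lemma base_H2_qn {n : ℕ} : H2 3 1 (qn : E n → ℝ) := by
  refine ⟨base_qn_contDiff _, fun i j => ?_⟩
  rw [base_pd_pd_qn]
  refine base_HB_mono ?_ (base_HB_const 3 ((1 : Mt n) i j))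
  rw [Matrix.one_apply]
  split_ifs <;> simp

lemma base_Sol {n : ℕ} : Sol (fun _ : E n => 0) qn where
  even := base_isEv_qn
  reg := ⟨1, base_H2_qn⟩
  pos := by
    refine ⟨1, one_pos, fun x v => ?_⟩
    rw [base_hess_qn]
    have : ∀ i, ∑ j, v i * (1 : Mt n) i j * v j = v i ^ 2 := by
      intro i
      simp [Matrix.one_apply, pow_two]
    simp [this]
  eq := by
    intro x
    simp only [WW, base_hess_qn, eul, base_fderiv_qn, Matrix.det_one, Real.log_one, qn]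
    rw [real_inner_self_eq_norm_sq]
    ring

lemma base_tau_qn {n : ℕ} : tau (qn : E n → ℝ) = fun _ => 1 := by
  funext x
  simp [tau, base_hess_qn]

theorem st_BASE (hS0 : ST_S0) : ST_BASE := by
  intro n
  refine ⟨base_Sol, ?_⟩
  obtain ⟨C, hC⟩ := hS0 n
  intro r N hr hN
  obtain ⟨u, hu, h2, h3⟩ := hC r N hr hN
  refine ⟨u, C * N, hu, h2, fun x => ?_⟩
  rw [base_tau_qn]
  exact h3 x

end CM
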